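import Mathlib

set_option autoImplicit false

namespace Pool.Agent.Results.MP_155d71_an.NoFixed

open Filter Topology BoundedContinuousFunction

noncomputable section

/-- `f ∈ LUC(S)`: the left translates `ℓ_s f` depend norm continuously on `s`. -/
def IsLUC {S : Type} [Semigroup S] [TopologicalSpace S] (h : ∀ s : S, Continuous fun t => s * t)
    (f : S →ᵇ ℂ) : Prop :=
  Continuous fun s : S => f.compContinuous ⟨fun t => s * t, h s⟩

/-- There is a functional of norm one with `m 1 = 1` that is multiplicative and left invariant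
on `LUC(S)`. -/
def ELA {S : Type} [Semigroup S] [TopologicalSpace S] (h : ∀ s : S, Continuous fun t => s * t) :
    Prop :=
  ∃ m : (S →ᵇ ℂ) →L[ℂ] ℂ, m 1 = 1 ∧ ‖m‖ = 1 ∧
    (∀ f g, IsLUC h f → IsLUC h g → m (f * g) = m f * m g) ∧
    ∀ f, IsLUC h f → ∀ s, m (f.compContinuous ⟨fun t => s * t, h s⟩) = m f

/-- The weak topology on a subset `C` of a normed space. -/
def weakTop {E : Type} [NormedAddCommGroup E] [NormedSpace ℝ E] (C : Set E) : TopologicalSpace C :=
  TopologicalSpace.induced (fun x => toWeakSpace ℝ E x.1) inferInstance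

abbrev E := lp (fun _ : ℕ => ℝ) 2

def e (n : ℕ) : E := lp.single 2 n 1

def C : Set E := insert 0 (Set.range e)

lemma e_orth : Orthonormal ℝ e := by
  rw [orthonormal_iff_ite]
  intro i j
  simp [e, lp.inner_single_left, lp.single_apply, Pi.single_apply]

lemma e_weak : Tendsto (fun n => toWeakSpace ℝ E (e n)) atTop (𝓝 (toWeakSpace ℝ E 0)) := by
  refine (WeakBilin.tendsto_iff_forall_eval_tendsto (B := (topDualPairing ℝ E).flip)
    (separatingDual_iff_injective.1 inferInstance)).2 fun φ => ?_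
  obtain ⟨y, rfl⟩ := (InnerProductSpace.toDual ℝ E).surjective φ
  have := (lp.memℓp y).summable (by norm_num) |>.tendsto_atTop_zero
  change Tendsto (fun n => inner ℝ y (e n)) atTop (𝓝 (inner ℝ y (0 : E)))
  rw [inner_zero_right, tendsto_zero_iff_norm_tendsto_zero]
  have h2 := this.sqrt
  simp only [ENNReal.toReal_ofNat, Real.rpow_ofNat, Real.sqrt_sq (norm_nonneg _), Real.sqrt_zero] at h2
  simpa [e, lp.inner_single_right] using h2

lemma cpt : IsCompact (toWeakSpace ℝ E '' C) := by
  rw [C, Set.image_insert_eq, ← Set.range_comp]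
  exact e_weak.isCompact_insert_range

def S : Submonoid (Function.End C) where
  carrier := {T | (∀ x y, ‖(T x).1 - (T y).1‖ ≤ ‖x.1 - y.1‖) ∧ Continuous[weakTop C, weakTop C] T}
  one_mem' := ⟨fun _ _ => le_rfl, @continuous_id _ (weakTop C)⟩
  mul_mem' := fun {a b} ha hb => ⟨fun _ _ => (ha.1 _ _).trans (hb.1 _ _),
    @Continuous.comp _ _ _ (weakTop C) (weakTop C) (weakTop C) _ _ ha.2 hb.2⟩

instance : TopologicalSpace S :=
  TopologicalSpace.induced (fun s => fun x : C => toWeakSpace ℝ E (s.1 x).1) inferInstance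

lemma ev (x : C) : Continuous[_, weakTop C] fun s : S => s.1 x :=
  continuous_induced_rng.2 ((continuous_apply x).comp (continuous_induced_dom
    (f := fun s : S => fun x : C => toWeakSpace ℝ E (s.1 x).1)))

lemma cont {X : Type} [TopologicalSpace X] {f : X → S}
    (h : ∀ x, Continuous[_, weakTop C] fun a => (f a).1 x) : Continuous f :=
  continuous_induced_rng.2 (continuous_pi fun x => (continuous_induced_rng
    (f := fun x : C => toWeakSpace ℝ E x.1)).1 (h x))

lemma left (s : S) : Continuous fun t : S => s * t :=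
  cont fun x => @Continuous.comp _ _ _ _ (weakTop C) (weakTop C) _ _ s.2.2 (ev x)

def cst (a : C) : S := ⟨fun _ => a, by simp, @continuous_const _ _ (weakTop C) (weakTop C) _⟩

def ec (n : ℕ) : C := ⟨e n, Or.inr ⟨n, rfl⟩⟩

def o : C := ⟨0, Or.inl rfl⟩

lemma sq (x y : C) : ‖x.1 - y.1‖ ^ 2 ≤ 2 ∧ ‖x.1 - o.1‖ ^ 2 ≤ 1 := by
  have n := e_orth.1
  have i := orthonormal_iff_ite.1 e_orth
  obtain ⟨_, rfl | ⟨a, rfl⟩⟩ := x <;> obtain ⟨_, rfl | ⟨b, rfl⟩⟩ := y <;>
    simp [o, n, norm_sub_sq_real, i]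
  split_ifs <;> norm_num

lemma sq' (n : ℕ) (y : C) (h : y ≠ ec n) : (y = o ∧ ‖(ec n).1 - y.1‖ ^ 2 = 1) ∨
    ‖(ec n).1 - y.1‖ ^ 2 = 2 := by
  have i := orthonormal_iff_ite.1 e_orth
  obtain ⟨_, rfl | ⟨b, rfl⟩⟩ := y
  · exact Or.inl ⟨rfl, by simp [ec, e_orth.1]⟩
  · have : n ≠ b := fun x => h (x ▸ rfl)
    right; simp [ec, e_orth.1, norm_sub_sq_real, i, this]; norm_num

open Classical in
def mv (n : ℕ) (b : C) : S := ⟨fun x => if x = ec n then b else x, by
  have k : ∀ y, y ≠ ec n → ‖b.1 - y.1‖ ≤ ‖(ec n).1 - y.1‖ := fun y h => by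
    refine (sq_le_sq₀ (norm_nonneg _) (norm_nonneg _)).1 ?_
    rcases sq' n y h with ⟨rfl, a⟩ | a <;> rw [a]
    exacts [(sq b b).2, (sq b y).1]
  refine ⟨fun x y => ?_, ?_⟩
  · dsimp only
    split_ifs with a c c
    · simp
    · exact a ▸ k y c
    · rw [norm_sub_rev, norm_sub_rev x.1]; exact c ▸ k x a
    · rfl
  · letI := weakTop C
    have c : Continuous fun x : C => inner ℝ (e n) x.1 :=
      (WeakBilin.eval_continuous (topDualPairing ℝ E).flip (innerSL ℝ (e n))).comp
        continuous_induced_dom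
    have i := orthonormal_iff_ite.1 e_orth
    have e1 : {x : C | x = ec n} = {x | inner ℝ (e n) x.1 ≠ (0 : ℝ)} := by
      ext ⟨_, rfl | ⟨a, rfl⟩⟩
      · simpa [ec] using (e_orth.ne_zero n).symm
      · simp [ec, i, e_orth.linearIndependent.injective.eq_iff, eq_comm]
    have e2 : {x : C | x = ec n} = {x | inner ℝ (e n) x.1 = (1 : ℝ)} := by
      ext ⟨_, rfl | ⟨a, rfl⟩⟩
      · simpa [ec] using (e_orth.ne_zero n).symm
      · simp [ec, i, e_orth.linearIndependent.injective.eq_iff, eq_comm]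
    have : IsClopen {x : C | x = ec n} :=
      ⟨e2 ▸ isClosed_eq c continuous_const, e1 ▸ isOpen_ne_fun c continuous_const⟩
    exact Continuous.if (by rw [this.frontier_eq]; simp) continuous_const continuous_id⟩

lemma mv_tend (b : C) : Tendsto (fun n => mv n b) atTop (𝓝 1) := by
  rw [nhds_induced, tendsto_comap_iff, tendsto_pi_nhds]
  intro x
  refine tendsto_const_nhds.congr' ?_
  have : ∀ᶠ n in atTop, x ≠ ec n := by
    rw [← Nat.cofinite_eq_atTop, eventually_cofinite]
    refine Set.Subsingleton.finite fun a ha b hb => e_orth.linearIndependent.injective ?_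
    exact congrArg Subtype.val ((not_not.1 ha).symm.trans (not_not.1 hb))
  exact this.mono fun n hn => by simp [mv, hn]; rfl

lemma luc {f : S →ᵇ ℂ} (h : IsLUC left f) (b : C) :
    Tendsto (fun n => f (cst (ec n))) atTop (𝓝 (f (cst b))) := by
  have := tendsto_iff_dist_tendsto_zero.1 ((h.tendsto 1).comp (mv_tend b))
  rw [tendsto_iff_dist_tendsto_zero]
  refine squeeze_zero (fun _ => dist_nonneg) (fun n => ?_) this
  refine le_trans (le_of_eq ?_) (dist_coe_le_dist (cst (ec n)))
  have : mv n b * cst (ec n) = cst b := Subtype.ext (funext fun x => if_pos rfl)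
  rw [dist_comm]
  change _ = dist (f (mv n b * cst (ec n))) (f (1 * cst (ec n)))
  rw [this, one_mul]

/-- An extremely left amenable semitopological semigroup with a weakly continuous, norm
nonexpansive representation on a weakly compact subset of `ℓ²` without a common fixed point. -/
theorem result : ∃ (S : Type) (_ : Semigroup S) (_ : TopologicalSpace S) (_ : T2Space S)
    (h : ∀ s : S, Continuous fun t => s * t), (∀ t : S, Continuous fun s => s * t) ∧ ELA h ∧
    ∃ (E : Type) (_ : NormedAddCommGroup E) (_ : NormedSpace ℝ E) (_ : CompleteSpace E)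
      (C : Set E) (T : S → C → C), C.Nonempty ∧ IsCompact (toWeakSpace ℝ E '' C) ∧
      IsClosed (toWeakSpace ℝ E '' C) ∧
      (∀ s t x, T (s * t) x = T s (T t x)) ∧
      (∀ s x y, ‖(T s x).1 - (T s y).1‖ ≤ ‖x.1 - y.1‖) ∧
      (∀ s, Continuous[weakTop C, weakTop C] (T s)) ∧
      (∀ x, Continuous[_, weakTop C] fun s => T s x) ∧
      (∀ c, IsCompact (closure (Set.range fun s => toWeakSpace ℝ E (T s c).1))) ∧
      ¬ ∃ z, ∀ s, T s z = z := by
  refine ⟨S, inferInstance, inferInstance, ?_, left, fun t => cont fun x => ev _,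
    ⟨evalCLM ℂ (cst o), rfl, ?_, fun _ _ _ _ => rfl, fun f hf s => ?_⟩, E, inferInstance,
    inferInstance, inferInstance, C, fun s => s.1, ⟨0, Or.inl rfl⟩, cpt, cpt.isClosed,
    fun _ _ _ => rfl, fun s => s.2.1, fun s => s.2.2, ev, fun c => ?_, ?_⟩
  · exact T2Space.of_injective_continuous (f := fun s : S => fun x : C => toWeakSpace ℝ E (s.1 x).1)
      (fun a b h => Subtype.ext (funext fun x => Subtype.ext
        ((toWeakSpace ℝ E).injective (congrFun h x)))) continuous_induced_dom
  · refine le_antisymm (ContinuousLinearMap.opNorm_le_bound _ zero_le_one fun f => ?_) ?_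
    · rw [one_mul]; exact f.norm_coe_le_norm _
    · haveI : Nonempty S := ⟨1⟩
      simpa using (evalCLM ℂ (cst o) : (S →ᵇ ℂ) →L[ℂ] ℂ).le_opNorm 1
  · exact tendsto_nhds_unique (luc hf (s.1 o)) (luc hf o)
  · exact cpt.closure_of_subset (by rintro _ ⟨s, rfl⟩; exact ⟨_, (s.1 c).2, rfl⟩)
  · rintro ⟨z, hz⟩
    exact e_orth.ne_zero 0 (congrArg Subtype.val ((hz (cst (ec 0))).trans (hz (cst o)).symm))

end

end Pool.Agent.Results.MP_155d71_an.NoFixed
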